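import Pool.Agent.H86.IR.Targets1

/-! # EN: the energy inequality in the plane -/

set_option autoImplicit false

open Complex Topology Filter InnerProductSpace MeasureTheory Laplacian
open scoped OnePoint

namespace Pool.Agent.H86.IR

theorem en_harm (b z : ℂ) (h : z ≠ b) : HarmonicAt (fun z => Real.log ‖z - b‖) z :=
  AnalyticAt.harmonicAt_log_norm (f := fun z => z - b)
    (analyticAt_id.sub analyticAt_const) (sub_ne_zero.2 h)

theorem en_lap_cont (w : ℂ → ℝ) (hw : ContDiff ℝ 2 w) : Continuous (Δ w) := by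
  rw [laplacian_eq_iteratedFDeriv_complexPlane]
  have h := hw.continuous_iteratedFDeriv (m := 2) le_rfl
  exact ((continuous_eval_const _).comp h).add ((continuous_eval_const _).comp h)

theorem en_lap_zero (w : ℂ → ℝ) (b : ℂ) (K : Set ℂ) (hK : IsCompact K) (hb : b ∈ K)
    (hw : ∀ z, z ∉ K → w z = Real.log ‖z - b‖) (z : ℂ) (hz : z ∉ K) : (Δ w) z = 0 := by
  have he : w =ᶠ[𝓝 z] fun z => Real.log ‖z - b‖ := by
    filter_upwards [hK.isClosed.isOpen_compl.mem_nhds hz] with y hy using hw y hy
  rw [(laplacian_congr_nhds he).eq_of_nhds]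
  exact (en_harm b z (fun h => hz (h ▸ hb))).2.eq_of_nhds

theorem en_lap_sum {n : ℕ} (α : Fin n → ℝ) (w : Fin n → ℂ → ℝ) (hw : ∀ k, ContDiff ℝ 2 (w k))
    (s : Finset (Fin n)) : ∀ z, (Δ (fun z => ∑ k ∈ s, α k * w k z)) z =
      ∑ k ∈ s, α k * (Δ (w k)) z := by
  classical
  induction s using Finset.induction_on with
  | empty =>
    intro z
    simp
  | insert a s ha ih =>
    intro z
    have e : (fun z => ∑ k ∈ insert a s, α k * w k z) =
        (α a • w a) + (fun z => ∑ k ∈ s, α k * w k z) := by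
      funext z
      simp [Finset.sum_insert ha]
    have hc : ContDiff ℝ 2 (fun z => ∑ k ∈ s, α k * w k z) :=
      ContDiff.sum fun k _ => contDiff_const.mul (hw k)
    have hca : ContDiff ℝ 2 (α a • w a) := contDiff_const.smul (hw a)
    rw [e, hca.contDiffAt.laplacian_add hc.contDiffAt, laplacian_smul _ (hw a).contDiffAt, ih z,
      Finset.sum_insert ha, smul_eq_mul]

theorem en_tendsto (b : ℂ) : Tendsto (fun z : ℂ => Real.log ‖z - b‖ - Real.log ‖z‖)
    (cocompact ℂ) (𝓝 0) := by
  have h1 : Tendsto (fun z : ℂ => 1 - b * z⁻¹) (cocompact ℂ) (𝓝 (1 - b * 0)) := by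
    have h : Tendsto (fun z : ℂ => z⁻¹) (cocompact ℂ) (𝓝 0) := by
      rw [← Metric.cobounded_eq_cocompact]
      exact tendsto_inv₀_cobounded
    exact tendsto_const_nhds.sub (tendsto_const_nhds.mul h)
  rw [mul_zero, sub_zero] at h1
  have h2 : Tendsto (fun z : ℂ => Real.log ‖1 - b * z⁻¹‖) (cocompact ℂ) (𝓝 0) := by
    have h := (Real.continuousAt_log (x := ‖(1 : ℂ)‖) (by simp)).tendsto.comp h1.norm
    simpa [Function.comp_def] using h
  refine h2.congr' ?_
  have hc : ∀ᶠ z : ℂ in cocompact ℂ, z ∉ ({0, b} : Set ℂ) :=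
    ((Set.finite_singleton b).insert 0).isCompact.compl_mem_cocompact
  filter_upwards [hc] with z hz
  have hz0 : z ≠ 0 := fun h => hz (by simp [h])
  have hzb : z - b ≠ 0 := sub_ne_zero.2 fun h => hz (by simp [h])
  rw [← Real.log_div (norm_ne_zero_iff.2 hzb) (norm_ne_zero_iff.2 hz0), ← norm_div]
  congr 2
  field_simp

theorem en_int (w u : ℂ → ℝ) (K : Set ℂ) (hw : Continuous w) (hu : Continuous u)
    (hK : IsCompact K) (h0 : ∀ z, z ∉ K → u z = 0) : Integrable (fun z => w z * u z) := by
  refine (hw.mul hu).integrable_of_hasCompactSupport ?_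
  refine HasCompactSupport.intro hK ?_
  intro z hz
  show w z * u z = 0
  rw [h0 z hz, mul_zero]

theorem en (hAA : T_AA) (hBB : T_BB) (hCC : T_CC) (hWK : T_WK) : T_EN := by
  intro n D b G γ hPG hdis α hα
  have hmain : ∀ δ : ℝ, 0 < δ → ∑ k, α k ^ 2 * (γ k - 2 * δ) +
      ∑ k, ∑ j, α k * α j * Real.log ‖b k - b j‖ ≤ 0 := by
    intro δ hδ
    choose w K hw hK hKD hbK hwK hΔ hge hbd using fun k => hWK (D k) (b k) (G k) (γ k) (hPG k) δ hδ
    have hz : ∀ k z, z ∉ K k → (Δ (w k)) z = 0 := fun k z h =>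
      en_lap_zero (w k) (b k) (K k) (hK k) (hbK k) (hwK k) z h
    have hΔc : ∀ k, Continuous (Δ (w k)) := fun k => en_lap_cont (w k) (hw k)
    have hint : ∀ k j, Integrable (fun z => w j z * (Δ (w k)) z) := fun k j =>
      en_int (w j) (Δ (w k)) (K k) (hw j).continuous (hΔc k) (hK k) (hz k)
    -- the total potential
    have hWc : ContDiff ℝ 2 (fun z => ∑ k, α k * w k z) :=
      ContDiff.sum fun k _ => contDiff_const.mul (hw k)
    have hCKc : IsCompact (⋃ k, K k) := isCompact_iUnion hK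
    have hW0 : ∀ z, z ∉ ⋃ k, K k → (Δ (fun z => ∑ k, α k * w k z)) z = 0 := by
      intro z hzz
      rw [en_lap_sum α w hw Finset.univ z]
      refine Finset.sum_eq_zero fun k _ => ?_
      rw [hz k z (fun h => hzz (Set.mem_iUnion.2 ⟨k, h⟩)), mul_zero]
    have hWt : Tendsto (fun z => ∑ k, α k * w k z) (cocompact ℂ) (𝓝 0) := by
      have h1 : Tendsto (fun z : ℂ => ∑ k, α k * (Real.log ‖z - b k‖ - Real.log ‖z‖))
          (cocompact ℂ) (𝓝 (∑ k : Fin n, α k * 0)) :=
        tendsto_finsetSum _ fun k _ => tendsto_const_nhds.mul (en_tendsto (b k))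
      have h0 : (∑ k : Fin n, α k * 0) = 0 := by simp
      rw [h0] at h1
      refine h1.congr' ?_
      filter_upwards [hCKc.compl_mem_cocompact] with z hzz
      have e1 : ∀ k, w k z = Real.log ‖z - b k‖ := fun k =>
        hwK k z (fun h => hzz (Set.mem_iUnion.2 ⟨k, h⟩))
      simp only [e1, mul_sub, Finset.sum_sub_distrib]
      rw [← Finset.sum_mul, hα, zero_mul, sub_zero]
    have hE := hCC (fun z => ∑ k, α k * w k z) (⋃ k, K k) hWc hCKc hW0 hWt
    -- expansion
    have hexp : ∫ z, (∑ k, α k * w k z) * (Δ (fun z => ∑ k, α k * w k z)) z =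
        ∑ k, ∑ j, α k * α j * ∫ z, w j z * (Δ (w k)) z := by
      have e : ∀ z, (∑ k, α k * w k z) * (Δ (fun z => ∑ k, α k * w k z)) z =
          ∑ k, ∑ j, α k * α j * (w j z * (Δ (w k)) z) := by
        intro z
        rw [en_lap_sum α w hw Finset.univ z, Finset.sum_mul_sum, Finset.sum_comm]
        refine Finset.sum_congr rfl fun k _ => Finset.sum_congr rfl fun j _ => ?_
        ring
      simp only [e]
      rw [integral_finsetSum _ fun k _ => integrable_finsetSum _ fun j _ =>
        (hint k j).const_mul _]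
      refine Finset.sum_congr rfl fun k _ => ?_
      rw [integral_finsetSum _ fun j _ => (hint k j).const_mul _]
      refine Finset.sum_congr rfl fun j _ => ?_
      rw [integral_const_mul]
    rw [hexp] at hE
    -- off-diagonal terms
    have hoff : ∀ k j, j ≠ k → ∫ z, w j z * (Δ (w k)) z =
        2 * Real.pi * Real.log ‖b k - b j‖ := by
      intro k j hjk
      have hd : Disjoint (D j) (D k) := hdis hjk
      have e : ∀ z, w j z * (Δ (w k)) z = Real.log ‖z - b j‖ * (Δ (w k)) z := by
        intro z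
        by_cases hzk : z ∈ K k
        · rw [hwK j z (fun h => Set.disjoint_left.1 hd (hKD j h) (hKD k hzk))]
        · rw [hz k z hzk, mul_zero, mul_zero]
      simp only [e]
      refine hAA (D k) (K k) (b k) (w k) (fun z => Real.log ‖z - b j‖) (hPG k).op (hK k) (hKD k)
        (hbK k) (hw k) (hwK k) ?_
      intro z hzD
      exact en_harm (b j) z (fun h => Set.disjoint_left.1 hd (h ▸ (hPG j).mem) hzD)
    -- diagonal terms
    have hdiag : ∀ k, 2 * Real.pi * (γ k - 2 * δ) ≤ ∫ z, w k z * (Δ (w k)) z := by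
      intro k
      obtain ⟨hi, he⟩ := hBB (K k) (b k) (w k) (hK k) (hbK k) (hw k) (hwK k)
      refine (mul_le_mul_of_nonneg_left (hbd k) Real.two_pi_pos.le).trans ?_
      rw [← he]
      refine integral_mono_ae hi (hint k k) ?_
      have hne : ∀ᵐ z : ℂ, z ≠ b k := by
        rw [ae_iff]
        have : {z : ℂ | ¬ z ≠ b k} = {b k} := by
          ext z
          simp
        rw [this]
        exact measure_singleton _
      filter_upwards [hne] with z hzb
      exact mul_le_mul_of_nonneg_right (hge k z hzb) (hΔ k z)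
    -- conclusion
    have hterm : ∀ k j, α k * α j * (if j = k then 2 * Real.pi * (γ k - 2 * δ) else
        2 * Real.pi * Real.log ‖b k - b j‖) ≤ α k * α j * ∫ z, w j z * (Δ (w k)) z := by
      intro k j
      split_ifs with h
      · rw [h]
        exact mul_le_mul_of_nonneg_left (hdiag k) (mul_self_nonneg _)
      · rw [hoff k j h]
    have hsum : ∑ k, ∑ j, α k * α j * (if j = k then 2 * Real.pi * (γ k - 2 * δ) else
        2 * Real.pi * Real.log ‖b k - b j‖) ≤ 0 :=
      (Finset.sum_le_sum fun k _ => Finset.sum_le_sum fun j _ => hterm k j).trans hE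
    have hrw : ∑ k, ∑ j, α k * α j * (if j = k then 2 * Real.pi * (γ k - 2 * δ) else
        2 * Real.pi * Real.log ‖b k - b j‖) = 2 * Real.pi * (∑ k, α k ^ 2 * (γ k - 2 * δ) +
          ∑ k, ∑ j, α k * α j * Real.log ‖b k - b j‖) := by
      rw [← Finset.sum_add_distrib, Finset.mul_sum]
      refine Finset.sum_congr rfl fun k _ => ?_
      have e : ∀ j, α k * α j * (if j = k then 2 * Real.pi * (γ k - 2 * δ) else
          2 * Real.pi * Real.log ‖b k - b j‖) =
          (if j = k then α k * α k * (2 * Real.pi * (γ k - 2 * δ)) else 0) +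
          2 * Real.pi * (α k * α j * Real.log ‖b k - b j‖) := by
        intro j
        split_ifs with h
        · rw [h, sub_self, norm_zero, Real.log_zero]
          ring
        · ring
      simp only [e]
      rw [Finset.sum_add_distrib, Finset.sum_ite_eq' Finset.univ k, if_pos (Finset.mem_univ k),
        ← Finset.mul_sum]
      ring
    rw [hrw] at hsum
    have hp := Real.two_pi_pos
    by_contra hcon
    push Not at hcon
    exact absurd hsum (not_le.2 (mul_pos hp hcon))
  by_contra hcon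
  push Not at hcon
  set S := ∑ k, α k ^ 2 * γ k + ∑ k, ∑ j, α k * α j * Real.log ‖b k - b j‖ with hS
  have hA : 0 ≤ ∑ k, α k ^ 2 := Finset.sum_nonneg fun k _ => sq_nonneg _
  have h := hmain (S / (4 * (∑ k, α k ^ 2 + 1))) (by positivity)
  have e : ∑ k, α k ^ 2 * (γ k - 2 * (S / (4 * (∑ k, α k ^ 2 + 1)))) =
      ∑ k, α k ^ 2 * γ k - (∑ k, α k ^ 2) * (2 * (S / (4 * (∑ k, α k ^ 2 + 1)))) := by
    rw [Finset.sum_mul, ← Finset.sum_sub_distrib]
    exact Finset.sum_congr rfl fun k _ => by ring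
  rw [e] at h
  have h2 : (∑ k, α k ^ 2) * (2 * (S / (4 * (∑ k, α k ^ 2 + 1)))) ≤ S / 2 := by
    have hpos : 0 < ∑ k, α k ^ 2 + 1 := by positivity
    have : (∑ k, α k ^ 2) * (2 * (S / (4 * (∑ k, α k ^ 2 + 1)))) =
        S / 2 * ((∑ k, α k ^ 2) / (∑ k, α k ^ 2 + 1)) := by
      field_simp
      ring
    rw [this]
    have hle : (∑ k, α k ^ 2) / (∑ k, α k ^ 2 + 1) ≤ 1 := by
      rw [div_le_one hpos]
      linarith
    nlinarith
  linarith

end Pool.Agent.H86.IR
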