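import Pool.Agent.H86.IR.Targets2

/-! # MPL: the minimum principle, local form -/

set_option autoImplicit false

open Complex Topology Filter InnerProductSpace Real

namespace Pool.Agent.H86.IR

theorem mpl : T_MPL := by
  intro f z hf hle
  obtain ⟨R, hR, hball⟩ := Metric.eventually_nhds_iff_ball.1 (hf.eventually.and hle)
  filter_upwards [Metric.ball_mem_nhds z hR] with w hw
  by_cases hwz : w = z
  · rw [hwz]
  by_contra hne
  have hlt : f z < f w := lt_of_le_of_ne (hball w hw).2 (fun h => hne h.symm)
  set r := ‖w - z‖ with hr
  have hr0 : 0 < r := norm_pos_iff.2 (sub_ne_zero.2 hwz)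
  have hrR : r < R := by
    have := Metric.mem_ball.1 hw
    rwa [dist_eq_norm] at this
  have hharm : HarmonicOnNhd f (Metric.closedBall z |r|) := by
    intro x hx
    refine (hball x ?_).1
    rw [abs_of_pos hr0] at hx
    exact Metric.closedBall_subset_ball hrR hx
  have hav := InnerProductSpace.HarmonicOnNhd.circleAverage_eq hharm
  rw [circleAverage_eq_integral_add (arg (w - z))] at hav
  have hmem : ∀ θ : ℝ, circleMap z r θ ∈ Metric.closedBall z |r| := fun θ =>
    Metric.sphere_subset_closedBall (circleMap_mem_sphere' z r θ)
  have hcont : Continuous (fun θ : ℝ => f (circleMap z r (θ + arg (w - z)))) := by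
    refine (hharm.continuousOn).comp_continuous ?_ (fun θ => hmem _)
    exact (continuous_circleMap z r).comp (continuous_id.add continuous_const)
  have h2 : ∫ θ in (0 : ℝ)..2 * π, f z < ∫ θ in (0 : ℝ)..2 * π,
      f (circleMap z r (θ + arg (w - z))) := by
    refine intervalIntegral.integral_lt_integral_of_continuousOn_of_le_of_exists_lt
      Real.two_pi_pos continuousOn_const hcont.continuousOn ?_ ?_
    · intro θ _
      refine (hball _ ?_).2
      have := hmem (θ + arg (w - z))
      rw [abs_of_pos hr0] at this
      exact Metric.closedBall_subset_ball hrR this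
    · refine ⟨0, ⟨le_refl _, Real.two_pi_pos.le⟩, ?_⟩
      have : circleMap z r (0 + arg (w - z)) = w := by
        rw [zero_add, circleMap, hr, norm_mul_exp_arg_mul_I]
        ring
      rw [this]
      exact hlt
  rw [intervalIntegral.integral_const, smul_eq_mul] at h2
  rw [smul_eq_mul] at hav
  have h2pi := Real.two_pi_pos
  have : f z * (2 * π) < f z * (2 * π) := by
    calc f z * (2 * π) = (2 * π - 0) * f z := by ring
      _ < ∫ θ in (0 : ℝ)..2 * π, f (circleMap z r (θ + arg (w - z))) := h2
      _ = f z * (2 * π) := by
        rw [← hav]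
        field_simp
  exact lt_irrefl _ this

end Pool.Agent.H86.IR
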