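import Pool.Agent.H86.IR.Targets2

/-! # TEN: the limit -/

set_option autoImplicit false

open Complex Topology Filter InnerProductSpace Real

namespace Pool.Agent.H86.IR

theorem ten_rpow (c : ℝ) (hc : 0 < c) :
    Tendsto (fun n : ℕ => c ^ (1 / (n : ℝ))) atTop (𝓝 1) := by
  have h := (Real.continuousAt_const_rpow (a := c) (b := 0) hc.ne').tendsto.comp
    (tendsto_one_div_atTop_nhds_zero_nat (𝕜 := ℝ))
  rw [Real.rpow_zero] at h
  exact h

theorem ten_root (c y : ℝ) (hc : 0 < c) (hy : 0 ≤ y) (n : ℕ) (hn : n ≠ 0) :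
    (c * y ^ n) ^ (1 / (n : ℝ)) = c ^ (1 / (n : ℝ)) * y := by
  rw [Real.mul_rpow hc.le (pow_nonneg hy n), ← Real.rpow_natCast y n, ← Real.rpow_mul hy,
    mul_one_div_cancel (Nat.cast_ne_zero.2 hn), Real.rpow_one]

theorem ten : T_TEN := by
  intro M hM
  have h1 : Tendsto (fun n : ℕ => (Real.pi ^ 2 / 4) ^ (1 / (n : ℝ)) * (4 / Real.pi) *
      ((n : ℝ) / (n - 1))) atTop (𝓝 (4 / Real.pi)) := by
    have ha := ten_rpow (Real.pi ^ 2 / 4) (by positivity)
    have hb : Tendsto (fun n : ℕ => (n : ℝ) / (n - 1)) atTop (𝓝 1) := by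
      have : Tendsto (fun n : ℕ => (1 : ℝ) / (1 - 1 / n)) atTop (𝓝 (1 / (1 - 0))) :=
        tendsto_const_nhds.div (tendsto_const_nhds.sub
          (tendsto_one_div_atTop_nhds_zero_nat (𝕜 := ℝ))) (by norm_num)
      rw [sub_zero, div_one] at this
      refine this.congr' ?_
      filter_upwards [eventually_ge_atTop 2] with n hn
      have hn' : (2 : ℝ) ≤ n := by exact_mod_cast hn
      have h0 : (n : ℝ) ≠ 0 := by positivity
      have h1 : (n : ℝ) - 1 ≠ 0 := by intro h; linarith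
      field_simp
    have := (ha.mul_const (4 / Real.pi)).mul hb
    simpa using this
  have h2 : Tendsto (fun n : ℕ => ((10 : ℝ) ^ 5) ^ (1 / (n : ℝ)) * (4 / Real.pi))
      atTop (𝓝 (4 / Real.pi)) := by
    have := (ten_rpow ((10 : ℝ) ^ 5) (by positivity)).mul_const (4 / Real.pi)
    simpa using this
  refine tendsto_of_tendsto_of_tendsto_of_le_of_le' h1 h2 ?_ ?_
  · filter_upwards [eventually_ge_atTop 2] with n hn
    have hn' : (2 : ℝ) ≤ n := by exact_mod_cast hn
    have hn1 : (0 : ℝ) < n - 1 := by linarith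
    have hy : 0 ≤ 4 / (Real.pi * ((n : ℝ) - 1)) := by positivity
    have hr := ten_root (Real.pi ^ 2 / 4) (4 / (Real.pi * ((n : ℝ) - 1))) (by positivity) hy n
      (by omega)
    have hle := Real.rpow_le_rpow (by positivity) (hM n hn).1 (z := 1 / (n : ℝ)) (by positivity)
    rw [hr] at hle
    calc (Real.pi ^ 2 / 4) ^ (1 / (n : ℝ)) * (4 / Real.pi) * ((n : ℝ) / (n - 1))
        = n * ((Real.pi ^ 2 / 4) ^ (1 / (n : ℝ)) * (4 / (Real.pi * ((n : ℝ) - 1)))) := by
          field_simp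
      _ ≤ n * (M n) ^ (1 / (n : ℝ)) := by gcongr
  · filter_upwards [eventually_ge_atTop 2] with n hn
    have hn' : (2 : ℝ) ≤ n := by exact_mod_cast hn
    have hn1 : (0 : ℝ) < n - 1 := by linarith
    have hM0 : 0 ≤ M n := le_trans (by positivity) (hM n hn).1
    have hr := ten_root ((10 : ℝ) ^ 5) (4 / (Real.pi * (n : ℝ))) (by positivity)
      (by positivity) n (by omega)
    have hle := Real.rpow_le_rpow hM0 (hM n hn).2 (z := 1 / (n : ℝ)) (by positivity)
    rw [hr] at hle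
    calc (n : ℝ) * (M n) ^ (1 / (n : ℝ))
        ≤ n * (((10 : ℝ) ^ 5) ^ (1 / (n : ℝ)) * (4 / (Real.pi * (n : ℝ)))) := by gcongr
      _ = ((10 : ℝ) ^ 5) ^ (1 / (n : ℝ)) * (4 / Real.pi) := by field_simp

end Pool.Agent.H86.IR
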