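import Pool.Agent.H86.IR.Targets2

/-! # ZB: the bound for the kernel zet -/

set_option autoImplicit false

open Complex Topology Filter InnerProductSpace Real

namespace Pool.Agent.H86.IR

theorem zb_conc (s : Set ℝ) (φ : ℝ → ℝ) (h : ConcaveOn ℝ s φ) (A d e : ℝ) (hd : 0 < d)
    (he : 0 < e) (hA : A ∈ s) (hAde : A + d + e ∈ s) :
    φ A - φ (A + d) - φ (A + e) + φ (A + d + e) ≤ 0 := by
  have hde : 0 < d + e := by positivity
  have p1 : 0 ≤ e / (d + e) := by positivity
  have p2 : 0 ≤ d / (d + e) := by positivity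
  have s1 : e / (d + e) + d / (d + e) = 1 := by
    rw [← add_div, add_comm e d, div_self hde.ne']
  have s2 : d / (d + e) + e / (d + e) = 1 := by rw [← add_div, div_self hde.ne']
  have h1 := h.2 hA hAde p1 p2 s1
  have h2 := h.2 hA hAde p2 p1 s2
  simp only [smul_eq_mul] at h1 h2
  have e1 : e / (d + e) * A + d / (d + e) * (A + d + e) = A + d := by
    field_simp
    ring
  have e2 : d / (d + e) * A + e / (d + e) * (A + d + e) = A + e := by
    field_simp
    ring
  rw [e1] at h1
  rw [e2] at h2
  have e3 : e / (d + e) * φ A + d / (d + e) * φ (A + d + e) +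
      (d / (d + e) * φ A + e / (d + e) * φ (A + d + e)) = φ A + φ (A + d + e) := by
    field_simp
    ring
  linarith

theorem zb_nonneg {N : ℕ} {t : ℕ → ℝ} (h : TT N t) (k : ℕ) (hk : k ≤ N) : 0 ≤ t k := by
  rcases Nat.eq_zero_or_pos k with h0 | h0
  · rw [h0, h.zero]
  · have := h.mono 0 k h0 hk
    rw [h.zero] at this
    exact this.le

theorem zb_le {N : ℕ} {t : ℕ → ℝ} (h : TT N t) (k : ℕ) (hk : k ≤ N) : t k ≤ Real.pi := by
  rcases Nat.eq_or_lt_of_le hk with h0 | h0
  · rw [h0, h.last]
  · have := h.mono k N h0 le_rfl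
    rw [h.last] at this
    exact this.le

theorem zb (hABL : T_ABL) (hEUL : T_EUL) : T_ZB := by
  intro N t ht
  have hpi := Real.pi_pos
  refine (hABL N (fun k j => zet (t k + t j)) ht.pos (Or.inr ?_)).trans ?_
  · intro a ha b hb
    have hda : 0 < t (a + 1) - t a := sub_pos.2 (ht.mono a (a + 1) (Nat.lt_succ_self a) ha)
    have hdb : 0 < t (b + 1) - t b := sub_pos.2 (ht.mono b (b + 1) (Nat.lt_succ_self b) hb)
    have h0a := zb_nonneg ht a ha.le
    have h0b := zb_nonneg ht b hb.le
    have h1a := zb_le ht (a + 1) ha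
    have h1b := zb_le ht (b + 1) hb
    have key := zb_conc _ zet hEUL (t a + t b) (t (a + 1) - t a) (t (b + 1) - t b) hda hdb
      ⟨by linarith, by linarith⟩ ⟨by linarith, by linarith⟩
    have e1 : t a + t b + (t (a + 1) - t a) = t (a + 1) + t b := by ring
    have e2 : t a + t b + (t (b + 1) - t b) = t a + t (b + 1) := by ring
    have e3 : t (a + 1) + t b + (t (b + 1) - t b) = t (a + 1) + t (b + 1) := by ring
    rw [e1, e2, e3] at key
    exact key
  · simp only [ht.zero, ht.last]
    have v0 : zet (0 + 0) = -Real.log (2 * Real.pi) := by simp [zet]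
    have v2 : zet (Real.pi + Real.pi) = -Real.log (2 * Real.pi) := by
      rw [← two_mul]
      simp [zet]
    have v1 : zet Real.pi = Real.log (2 / Real.pi ^ 2) := by
      unfold zet
      rw [if_neg (by
        rintro (h | h)
        · exact hpi.ne' h
        · linarith), Real.sin_pi_div_two]
      congr 1
      rw [mul_one]
      congr 1
      ring
    rw [v0, v2, add_zero, zero_add, v1]
    have h2pi : (2 * Real.pi) ≠ 0 := by positivity
    have e : -Real.log (2 * Real.pi) - Real.log (2 / Real.pi ^ 2) -
        Real.log (2 / Real.pi ^ 2) + -Real.log (2 * Real.pi) = -2 * Real.log (4 / Real.pi) := by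
      have : Real.log (4 / Real.pi) = Real.log (2 * Real.pi) + Real.log (2 / Real.pi ^ 2) := by
        rw [← Real.log_mul h2pi (by positivity)]
        congr 1
        field_simp
        norm_num
      rw [this]
      ring
    rw [e]
    have hl : 0 ≤ Real.log (4 / Real.pi) :=
      Real.log_nonneg (by rw [le_div_iff₀ hpi]; linarith [Real.pi_le_four])
    rw [abs_mul, abs_of_nonneg hl]
    norm_num
    linarith

end Pool.Agent.H86.IR
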